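import Mathlib

/-! The `L`-group of `GSp(2n)`, Satake parameters and the Euler products `L_S(s, π, ρ)`. -/

set_option autoImplicit false

namespace Pool.Agent.Q12.GS

/-- the quadratic form `x₁² + ⋯ + x_{2n+1}²` over `ℂ` -/
noncomputable def qform (n : ℕ) : QuadraticForm ℂ (Fin (2 * n + 1) → ℂ) :=
  QuadraticMap.weightedSumSquares ℂ fun _ : Fin (2 * n + 1) => (1 : ℂ)

/-- the Clifford algebra of this form -/
def Cl (n : ℕ) : Type := CliffordAlgebra (qform n)

noncomputable instance (n : ℕ) : Ring (Cl n) := inferInstanceAs (Ring (CliffordAlgebra (qform n)))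

noncomputable instance (n : ℕ) : Algebra ℂ (Cl n) := inferInstanceAs (Algebra ℂ (CliffordAlgebra (qform n)))

/-- the spin group -/
noncomputable def spin (n : ℕ) : Submonoid (Cl n) := spinGroup (qform n)

/-- The `L`-group of `GSp(2n)`: the group generated by the scalars and the spin group of the quadratic form in `2n + 1`
complex variables, in the units of the Clifford algebra. -/
noncomputable def LGroup (n : ℕ) : Subgroup (Cl n)ˣ :=
  Subgroup.closure {u | (∃ c : ℂ, (u : Cl n) = algebraMap ℂ (Cl n) c) ∨ (u : Cl n) ∈ spin n}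

/-- the `L`-group as a type -/
def LG (n : ℕ) : Type := LGroup n

noncomputable instance (n : ℕ) : Group (LG n) := inferInstanceAs (Group (LGroup n))

/-- The data of an Euler product `L_S(s, π, ρ)` for `GSp(2n)`: the rank `n`, the finite set `S` of primes, a
representative `A p` of the Satake class of `π_p` in the `L`-group for `p ∉ S` (the values of `A` at the primes of `S`
are not used), and a representation `ρ` of the `L`-group of degree `m`. -/
structure Datum where
  n : ℕ
  S : Finset Nat.Primes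
  A : Nat.Primes → LG n
  m : ℕ
  ρ : LG n →* GL (Fin m) ℂ

namespace Datum

variable (D : Datum)

/-- the matrix `ρ(A_p)` -/
noncomputable def mat (p : Nat.Primes) : Matrix (Fin D.m) (Fin D.m) ℂ := (D.ρ (D.A p) : GL (Fin D.m) ℂ)

/-- `L_S(s, π, ρ) = ∏_{p ∉ S} det (1 - ρ(A_p) p^{-s})⁻¹` -/
noncomputable def LFun (s : ℂ) : ℂ :=
  ∏' p : {p : Nat.Primes // p ∉ D.S}, (Matrix.det (1 - (((p.1 : ℕ) : ℂ) ^ (-s)) • D.mat p.1))⁻¹

/-- The eigenvalues of `ρ(A_p)`, `p ∉ S`, have absolute value at most `1`. (For tempered `π` with a unitary central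
character they have absolute value `1`, for every `ρ`.) -/
def Tempered : Prop :=
  ∀ p : Nat.Primes, p ∉ D.S → ∀ z : ℂ, (D.mat p).charpoly.IsRoot z → ‖z‖ ≤ 1

end Datum

/-- the point `1 + iτ` of the edge -/
noncomputable def edge (τ : ℝ) : ℂ := 1 + τ * Complex.I

/-- the angle `|s - (1 + iτ)| ≤ C (Re s - 1)` in the half-plane `Re s > 1` -/
def angle (τ C : ℝ) : Set ℂ := {s : ℂ | 1 < s.re ∧ ‖s - edge τ‖ ≤ C * (s.re - 1)}

end Pool.Agent.Q12.GS
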