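import Mathlib
import Pool.Agent.Q12.EC.Exp
import Pool.Agent.Q12.GS.Defs
import Pool.Agent.TH339.MP.Q3

/-! The Euler product as the exponential of a Dirichlet series. -/

set_option autoImplicit false

open Complex MeasureTheory Set Filter Topology
open Pool.Agent.TH339.MP (PP FF)

namespace Pool.Agent.Q12.GS

open Pool.Agent.Q12.WN Pool.Agent.Q12.EC

/-- the eigenvalues as a family -/
theorem exists_eig {m : ℕ} (B : Matrix (Fin m) (Fin m) ℂ) : ∃ α : Fin m → ℂ, (∀ i, B.charpoly.IsRoot (α i)) ∧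
    (∀ z : ℂ, z ≠ 0 → Matrix.det (1 - z • B) = ∏ i, (1 - α i * z)) ∧
    ∀ g : ℂ → ℂ, ∑ i, g (α i) = (B.charpoly.roots.map g).sum := by
  classical
  have hs := IsAlgClosed.splits B.charpoly
  have hcard : B.charpoly.roots.card = m := by
    rw [← hs.natDegree_eq_card_roots, Matrix.charpoly_natDegree_eq_dim, Fintype.card_fin]
  have hprod : B.charpoly = (B.charpoly.roots.map fun a => Polynomial.X - Polynomial.C a).prod :=
    hs.eq_prod_roots_of_monic B.charpoly_monic
  set l : List ℂ := B.charpoly.roots.toList with hl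
  have hlen : l.length = m := by rw [hl, Multiset.length_toList, hcard]
  refine ⟨fun i => l.get (i.cast hlen.symm), fun i => ?_, fun z hz => ?_, fun g => ?_⟩
  · have h1 : l.get (i.cast hlen.symm) ∈ l := List.get_mem l _
    exact (Polynomial.mem_roots'.1 (Multiset.mem_toList.1 h1)).2
  · have h1 : (1 : Matrix (Fin m) (Fin m) ℂ) - z • B = z • (Matrix.scalar (Fin m) z⁻¹ - B) := by
      rw [smul_sub]
      congr 1
      rw [Matrix.scalar_apply, ← Matrix.diagonal_one, ← Matrix.diagonal_smul]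
      congr 1
      funext i
      simp [hz]
    have h2 : (Matrix.scalar (Fin m) z⁻¹ - B).det = B.charpoly.eval z⁻¹ := by
      rw [Matrix.eval_charpoly]
    rw [h1, Matrix.det_smul, h2, Fintype.card_fin]
    have h3 : B.charpoly.eval z⁻¹ = ∏ i : Fin m, (z⁻¹ - l.get (i.cast hlen.symm)) := by
      conv_lhs => rw [hprod]
      rw [Polynomial.eval_multiset_prod, Multiset.map_map]
      have h4 : B.charpoly.roots = (l : Multiset ℂ) := (Multiset.coe_toList _).symm
      rw [h4, Multiset.map_coe, Multiset.prod_coe, ← List.prod_ofFn]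
      congr 1
      refine List.ext_get ?_ ?_
      · simp [hlen]
      · intro k h5 h6
        simp
    have h7 : z ^ m = ∏ _i : Fin m, z := by rw [Finset.prod_const, Finset.card_univ, Fintype.card_fin]
    rw [h3, h7, ← Finset.prod_mul_distrib]
    refine Finset.prod_congr rfl fun i _ => ?_
    rw [mul_sub, mul_inv_cancel₀ hz]
    ring
  · have h4 : B.charpoly.roots = (l : Multiset ℂ) := (Multiset.coe_toList _).symm
    rw [h4, Multiset.map_coe, Multiset.sum_coe, ← List.sum_ofFn]
    congr 1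
    refine List.ext_get ?_ ?_
    · simp [hlen]
    · intro k h5 h6
      simp

/-- the roots at `p`, with `0` for `p` in `S` -/
noncomputable def al (D : Datum) (p : Nat.Primes) : Fin D.m → ℂ :=
  open scoped Classical in if p ∈ D.S then 0 else (exists_eig (D.mat p)).choose

/-- the coefficients of the logarithm -/
noncomputable def co (D : Datum) (x : PP) : ℂ := (∑ i, al D x.1 i ^ (x.2 + 1)) / ((x.2 : ℂ) + 1)

theorem al_norm {D : Datum} (hD : D.Tempered) (p : Nat.Primes) (i : Fin D.m) : ‖al D p i‖ ≤ 1 := by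
  classical
  unfold al
  split_ifs with h
  · simp
  · exact hD p h _ ((exists_eig (D.mat p)).choose_spec.1 i)

theorem co_norm {D : Datum} (hD : D.Tempered) (x : PP) : ‖co D x‖ ≤ (D.m : ℝ) / (x.2 + 1 : ℕ) := by
  unfold co
  have h1 : ‖((x.2 : ℂ) + 1)‖ = ((x.2 + 1 : ℕ) : ℝ) := by
    rw [show ((x.2 : ℂ) + 1) = (((x.2 + 1 : ℕ)) : ℂ) by push_cast; rfl, Complex.norm_natCast]
  rw [norm_div, h1]
  exact div_le_div_of_nonneg_right (tr_le (al_norm hD) x.1 _) (Nat.cast_nonneg _)

theorem psysP : PSys (fun p : Nat.Primes => ((p : ℕ) : ℝ)) where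
  two_le := fun p => by exact_mod_cast p.2.two_le
  summ := fun σ hσ => Nat.Primes.summable_rpow.2 (by linarith)

theorem cexp_log (p : Nat.Primes) (s : ℂ) : cexp (-(s * Real.log ((p : ℕ) : ℝ))) = ((p : ℕ) : ℂ) ^ (-s) := by
  have hn0 : (0 : ℝ) < ((p : ℕ) : ℝ) := by exact_mod_cast p.2.pos
  have hnc : ((p : ℕ) : ℂ) ≠ 0 := by exact_mod_cast hn0.ne'
  rw [Complex.cpow_def_of_ne_zero hnc, ← Complex.ofReal_natCast, ← Complex.ofReal_log hn0.le]
  congr 1
  ring

theorem FF_eq_ex (D : Datum) (s : ℂ) : FF (co D) s = ex (fun p : Nat.Primes => ((p : ℕ) : ℝ)) (al D) s := by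
  unfold FF ex
  refine tsum_congr fun y => ?_
  unfold Pool.Agent.TH339.MP.tm co
  rw [cexp_LG, cexp_log]

/-- **The Euler product.** -/
theorem LFun_exp {D : Datum} (hD : D.Tempered) {s : ℂ} (hs : 1 < s.re) : D.LFun s = cexp (FF (co D) s) := by
  classical
  have h1 := ex_prod psysP (al_norm hD) hs
  rw [FF_eq_ex]
  have h2 : ∀ p : Nat.Primes, p ∈ D.S → ∏ i, (1 - al D p i * cexp (-(s * Real.log ((p : ℕ) : ℝ))))⁻¹ = 1 := by
    intro p hp
    refine Finset.prod_eq_one fun i _ => ?_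
    unfold al
    rw [if_pos hp]
    simp
  have h3 : ∀ p : Nat.Primes, p ∉ D.S → ∏ i, (1 - al D p i * cexp (-(s * Real.log ((p : ℕ) : ℝ))))⁻¹ =
      (Matrix.det (1 - (((p : ℕ) : ℂ) ^ (-s)) • D.mat p))⁻¹ := by
    intro p hp
    have hz : ((p : ℕ) : ℂ) ^ (-s) ≠ 0 := by
      rw [← cexp_log]
      exact Complex.exp_ne_zero _
    rw [(exists_eig (D.mat p)).choose_spec.2.1 _ hz, Finset.prod_inv_distrib, cexp_log]
    congr 1
    refine Finset.prod_congr rfl fun i _ => ?_
    unfold al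
    rw [if_neg hp]
  have h4 : Function.Injective (fun v : {p : Nat.Primes // p ∉ D.S} => v.1) := Subtype.val_injective
  have h5 := h4.tprod_eq (f := fun p : Nat.Primes => ∏ i, (1 - al D p i * cexp (-(s * Real.log ((p : ℕ) : ℝ))))⁻¹) (by
    intro p hp
    by_contra h6
    refine hp (h2 p ?_)
    by_contra h7
    exact h6 ⟨⟨p, h7⟩, rfl⟩)
  rw [← h1.tprod_eq, ← h5]
  unfold Datum.LFun
  exact tprod_congr fun v => (h3 v.1 v.2).symm

end Pool.Agent.Q12.GS
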