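import Mathlib
import Pool.Agent.Q12.GS.Fac
import Pool.Agent.TH339.MP.U3

/-! Boundary values of combinations. -/

set_option autoImplicit false

open Complex MeasureTheory Set Filter Topology
open Pool.Agent.TH339.MP (PP FF tm bl ap PS PS_tendsto ae_notMem bl_angle boundary summable_wt norm_tm edge_harnack)
open Pool.Agent.W350.Edge (divSet)

namespace Pool.Agent.Q12.GS

variable {ι : Type*} {D : ι → Datum}

/-- `∑ z_j b_j` -/
noncomputable def cb (D : ι → Datum) (T : Finset ι) (z : ι → ℂ) (x : PP) : ℂ := ∑ j ∈ T, z j * co (D j) x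

theorem cb_norm (hD : ∀ j, (D j).Tempered) (T : Finset ι) (z : ι → ℂ) (x : PP) :
    ‖cb D T z x‖ ≤ (∑ j ∈ T, ‖z j‖ * (D j).m) / (x.2 + 1 : ℕ) := by
  unfold cb
  refine (norm_sum_le _ _).trans ?_
  rw [Finset.sum_div]
  refine Finset.sum_le_sum fun j _ => ?_
  rw [norm_mul, mul_div_assoc]
  exact mul_le_mul_of_nonneg_left (co_norm (hD j) x) (norm_nonneg _)

theorem tm_summable {b : PP → ℂ} {M : ℝ} (hb : ∀ x, ‖b x‖ ≤ M / (x.2 + 1 : ℕ)) {s : ℂ} (hs : 1 < s.re) :
    Summable (tm b s) := by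
  refine Summable.of_norm_bounded ((summable_wt hs).mul_left M) fun x => ?_
  rw [norm_tm]
  rw [← mul_div_assoc, mul_comm M, mul_div_assoc, mul_comm]
  exact mul_le_mul_of_nonneg_left (hb x) (Pool.Agent.TH339.MP.wt_nonneg _ x)

theorem FF_cb (hD : ∀ j, (D j).Tempered) (T : Finset ι) (z : ι → ℂ) {s : ℂ} (hs : 1 < s.re) :
    FF (cb D T z) s = ∑ j ∈ T, z j * FF (co (D j)) s := by
  unfold FF
  rw [Finset.sum_congr rfl fun j _ => (tsum_mul_left (a := z j) (f := tm (co (D j)) s)).symm,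
    ← Summable.tsum_finsetSum fun j _ => (tm_summable (co_norm (hD j)) hs).mul_left (z j)]
  refine tsum_congr fun x => ?_
  unfold tm cb
  rw [Finset.sum_mul]
  exact Finset.sum_congr rfl fun j _ => by ring

theorem bl_cb (hD : ∀ j, (D j).Tempered) (T : Finset ι) (z : ι → ℂ) {τ : ℝ} (h1 : ∀ j, τ ∉ divSet (ap (co (D j))))
    (h2 : τ ∉ divSet (ap (cb D T z))) : bl (cb D T z) τ = ∑ j ∈ T, z j * bl (co (D j)) τ := by
  have h3 := PS_tendsto (cb_norm hD T z) h2
  have h4 : Tendsto (fun X => ∑ j ∈ T, z j * PS (co (D j)) X τ) atTop (𝓝 (∑ j ∈ T, z j * bl (co (D j)) τ)) :=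
    tendsto_finsetSum _ fun j _ => (PS_tendsto (co_norm (hD j)) (h1 j)).const_mul (z j)
  refine tendsto_nhds_unique h3 (h4.congr fun X => ?_)
  unfold PS cb
  rw [Finset.sum_congr rfl fun j _ => Finset.mul_sum _ _ _, Finset.sum_comm]
  refine Finset.sum_congr rfl fun x _ => ?_
  rw [Finset.sum_mul, Finset.sum_mul]
  exact Finset.sum_congr rfl fun j _ => by ring

/-- the exceptional set of a countable family -/
theorem exc_dim [Countable ι] (hD : ∀ j, (D j).Tempered) : dimH (⋃ j, divSet (ap (co (D j)))) = 0 := by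
  rw [dimH_iUnion]
  refine le_antisymm (iSup_le fun j => ?_) bot_le
  rw [(boundary (co_norm (hD j))).2.1]

/-- the boundary function of `L_S(s, π, ρ)` -/
noncomputable def lb (D : Datum) (τ : ℝ) : ℂ := cexp (bl (co D) τ)

theorem LFun_angle {D : Datum} (hD : D.Tempered) {τ : ℝ} (hτ : τ ∉ divSet (ap (co D))) (C : ℝ) :
    Tendsto D.LFun (𝓝[angle τ C] (edge τ)) (𝓝 (lb D τ)) := by
  have h5 := (Complex.continuous_exp.tendsto _).comp (bl_angle (co_norm hD) hτ C)
  have h6 : Tendsto (fun s : ℂ => s - edge τ) (𝓝[angle τ C] (edge τ)) (𝓝[{z : ℂ | 0 < z.re ∧ ‖z‖ ≤ C * z.re}] 0) := by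
    rw [tendsto_nhdsWithin_iff]
    constructor
    · have h7 : Tendsto (fun s : ℂ => s - edge τ) (𝓝 (edge τ)) (𝓝 (edge τ - edge τ)) :=
        (continuous_id.sub continuous_const).tendsto _
      rw [sub_self] at h7
      exact h7.mono_left nhdsWithin_le_nhds
    · filter_upwards [self_mem_nhdsWithin] with s hs
      have hre : (s - edge τ).re = s.re - 1 := by
        unfold edge
        simp
      refine ⟨?_, ?_⟩
      · rw [hre]
        linarith [hs.1]
      · rw [hre]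
        exact hs.2
  refine (h5.comp h6).congr' ?_
  filter_upwards [self_mem_nhdsWithin] with s hs
  rw [LFun_exp hD hs.1]
  simp only [Function.comp_apply]
  congr 2
  unfold edge
  ring

theorem lb_ne (D : Datum) (τ : ℝ) : lb D τ ≠ 0 := Complex.exp_ne_zero _

/-- integer combinations: the product of the `L`-functions -/
theorem prod_LFun (hD : ∀ j, (D j).Tempered) (k : ι →₀ ℤ) {s : ℂ} (hs : 1 < s.re) :
    (k.prod fun j e => (D j).LFun s ^ e) = cexp (FF (cb D k.support fun j => (k j : ℂ)) s) := by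
  rw [FF_cb hD _ _ hs, Complex.exp_sum]
  unfold Finsupp.prod
  refine Finset.prod_congr rfl fun j _ => ?_
  show (D j).LFun s ^ k j = _
  rw [LFun_exp (hD j) hs, ← Complex.exp_int_mul]

theorem prod_lb (hD : ∀ j, (D j).Tempered) (k : ι →₀ ℤ) {τ : ℝ} (h1 : ∀ j, τ ∉ divSet (ap (co (D j))))
    (h2 : τ ∉ divSet (ap (cb D k.support fun j => (k j : ℂ)))) :
    (k.prod fun j e => lb (D j) τ ^ e) = cexp (bl (cb D k.support fun j => (k j : ℂ)) τ) := by
  rw [bl_cb hD _ _ h1 h2, Complex.exp_sum]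
  unfold Finsupp.prod
  refine Finset.prod_congr rfl fun j _ => ?_
  show lb (D j) τ ^ k j = _
  unfold lb
  rw [← Complex.exp_int_mul]

theorem norm_exp_rpow (w : ℂ) (c : ℝ) : ‖cexp w‖ ^ c = ‖cexp ((c : ℂ) * w)‖ := by
  rw [Complex.norm_exp, Complex.norm_exp, ← Real.exp_mul]
  congr 1
  simp
  ring

/-- real exponents inside -/
theorem rprod_LFun (hD : ∀ j, (D j).Tempered) (T : Finset ι) (c : ι → ℝ) {s : ℂ} (hs : 1 < s.re) :
    ∏ j ∈ T, ‖(D j).LFun s‖ ^ c j = ‖cexp (FF (cb D T fun j => (c j : ℂ)) s)‖ := by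
  rw [FF_cb hD _ _ hs, Complex.exp_sum, norm_prod]
  refine Finset.prod_congr rfl fun j _ => ?_
  rw [LFun_exp (hD j) hs, norm_exp_rpow]

/-- real exponents on the edge -/
theorem rprod_lb (hD : ∀ j, (D j).Tempered) (T : Finset ι) (c : ι → ℝ) {τ : ℝ}
    (h1 : ∀ j, τ ∉ divSet (ap (co (D j)))) (h2 : τ ∉ divSet (ap (cb D T fun j => (c j : ℂ)))) :
    ∏ j ∈ T, ‖lb (D j) τ‖ ^ c j = ‖cexp (bl (cb D T fun j => (c j : ℂ)) τ)‖ := by
  rw [bl_cb hD _ _ h1 h2, Complex.exp_sum, norm_prod]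
  refine Finset.prod_congr rfl fun j _ => ?_
  unfold lb
  rw [norm_exp_rpow]

/-- **The means over intervals of the edge and the values inside.** -/
theorem harnack [Countable ι] (hD : ∀ j, (D j).Tempered) (T : Finset ι) (c : ι → ℝ)
    (hc : ∑ j ∈ T, |c j| * (D j).m < 1) {h : ℝ} (hh : 0 < h) (hh2 : h ≤ 1 / 2) (t : ℝ) :
    IntegrableOn (fun u => ∏ j ∈ T, ‖lb (D j) u‖ ^ c j) (Set.Icc (t - h / 2) (t + h / 2)) ∧
    (1 - ∑ j ∈ T, |c j| * (D j).m) / 1000 * h * (∏ j ∈ T, ‖(D j).LFun (edge t + h)‖ ^ c j) ≤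
      ∫ u in (t - h / 2)..(t + h / 2), ∏ j ∈ T, ‖lb (D j) u‖ ^ c j ∧
    ∫ u in (t - h / 2)..(t + h / 2), ∏ j ∈ T, ‖lb (D j) u‖ ^ c j ≤
      1000 / (1 - ∑ j ∈ T, |c j| * (D j).m) * h * (∏ j ∈ T, ‖(D j).LFun (edge t + h)‖ ^ c j) := by
  set b : PP → ℂ := cb D T fun j => (c j : ℂ) with hb
  have hM : ∑ j ∈ T, ‖((c j : ℝ) : ℂ)‖ * (D j).m = ∑ j ∈ T, |c j| * (D j).m := by
    refine Finset.sum_congr rfl fun j _ => ?_
    rw [Complex.norm_real, Real.norm_eq_abs]
  have hbn : ∀ x, ‖b x‖ ≤ (∑ j ∈ T, |c j| * (D j).m) / (x.2 + 1 : ℕ) := fun x => by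
    have := cb_norm hD T (fun j => (c j : ℂ)) x
    rwa [hM] at this
  obtain ⟨i1, i2, i3⟩ := edge_harnack hbn hh hh2 t 1 (by rw [norm_one, one_mul]; exact hc)
  rw [norm_one, one_mul] at i2 i3
  simp only [one_mul] at i1 i2 i3
  have hs : 1 < (edge t + h).re := by
    unfold edge
    simp [hh]
  have e1 : (((1 + h : ℝ) : ℂ) + t * I) = edge t + h := by
    unfold edge
    push_cast
    ring
  rw [e1, ← rprod_LFun hD T c hs] at i2 i3
  have hae : (fun u => ∏ j ∈ T, ‖lb (D j) u‖ ^ c j) =ᵐ[volume] fun u => ‖cexp (bl b u)‖ := by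
    have h1 : ∀ᵐ u : ℝ, ∀ j, u ∉ divSet (ap (co (D j))) := by
      rw [ae_all_iff]
      exact fun j => ae_notMem (co_norm (hD j))
    filter_upwards [h1, ae_notMem hbn] with u hu hu2
    exact rprod_lb hD T c hu hu2
  have hint : ∫ u in (t - h / 2)..(t + h / 2), ∏ j ∈ T, ‖lb (D j) u‖ ^ c j =
      ∫ u in (t - h / 2)..(t + h / 2), ‖cexp (bl b u)‖ := by
    refine intervalIntegral.integral_congr_ae ?_
    filter_upwards [hae] with u hu _
    exact hu
  rw [hint]
  exact ⟨i1.congr_fun_ae (ae_restrict_of_ae (hae.symm)), i2, i3⟩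

/-- two-sided bounds give the same exponent -/
theorem exponent {F G : ℝ → ℝ} {c A m : ℝ} (hc : c ≠ 0) (hF : ∀ h, 0 < h → h ≤ 1 / 2 → 0 < F h)
    (hG : ∀ h, 0 < h → h ≤ 1 / 2 → A⁻¹ * F h ^ c ≤ G h ∧ G h ≤ A * F h ^ c) (hA : 0 < A) :
    Tendsto (fun h => Real.log (F h) / Real.log h) (𝓝[>] 0) (𝓝 m) ↔
      Tendsto (fun h => Real.log (G h) / (c * Real.log h)) (𝓝[>] 0) (𝓝 m) := by
  have hlog : Tendsto (fun h : ℝ => Real.log h) (𝓝[>] 0) atBot := Real.tendsto_log_nhdsGT_zero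
  have hz : Tendsto (fun h : ℝ => (|Real.log A| / |c|) / |Real.log h|) (𝓝[>] 0) (𝓝 0) :=
    Tendsto.div_atTop tendsto_const_nhds (tendsto_abs_atBot_atTop.comp hlog)
  have hd : Tendsto (fun h => Real.log (G h) / (c * Real.log h) - Real.log (F h) / Real.log h)
      (𝓝[>] 0) (𝓝 0) := by
    refine squeeze_zero_norm' ?_ hz
    have h1 : ∀ᶠ h : ℝ in 𝓝[>] 0, h ≤ 1 / 2 :=
      (eventually_le_nhds (by norm_num : (0 : ℝ) < 1 / 2)).filter_mono nhdsWithin_le_nhds
    filter_upwards [self_mem_nhdsWithin, h1] with h hh hh2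
    have hh0 : 0 < h := hh
    have hl : Real.log h ≠ 0 := (Real.log_neg hh0 (by linarith)).ne
    obtain ⟨g1, g2⟩ := hG h hh0 hh2
    have hF0 := hF h hh0 hh2
    have hFc : 0 < F h ^ c := Real.rpow_pos_of_pos hF0 c
    have hG0 : 0 < G h := lt_of_lt_of_le (by positivity) g1
    have e1 : Real.log (G h) / (c * Real.log h) - Real.log (F h) / Real.log h =
        (Real.log (G h) - c * Real.log (F h)) / (c * Real.log h) := by
      field_simp
    have g3 : Real.log (G h) ≤ Real.log A + c * Real.log (F h) := by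
      rw [← Real.log_rpow hF0, ← Real.log_mul hA.ne' hFc.ne']
      exact Real.log_le_log hG0 g2
    have g4 : -Real.log A + c * Real.log (F h) ≤ Real.log (G h) := by
      rw [← Real.log_rpow hF0, ← Real.log_inv, ← Real.log_mul (inv_ne_zero hA.ne') hFc.ne']
      exact Real.log_le_log (by positivity) g1
    have g5 : |Real.log (G h) - c * Real.log (F h)| ≤ |Real.log A| := by
      rw [abs_le]
      have := le_abs_self (Real.log A)
      constructor <;> linarith
    rw [e1, Real.norm_eq_abs, abs_div, abs_mul, div_div]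
    exact div_le_div_of_nonneg_right g5 (by positivity)
  constructor
  · intro h
    have := h.add hd
    rw [add_zero] at this
    exact this.congr fun x => by ring
  · intro h
    have := h.sub hd
    rw [sub_zero] at this
    exact this.congr fun x => by ring

end Pool.Agent.Q12.GS
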