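import Mathlib
import Pool.Agent.Q12.GS.Fac
import Pool.Agent.Q12.EC.Cmb

/-! One-sided bounds in windows and meromorphic continuations. -/

set_option autoImplicit false

open Complex MeasureTheory Set Filter Topology
open Pool.Agent.W189.TP (DS)
open Pool.Agent.TH339.MP (PP FF)

namespace Pool.Agent.Q12.GS

open Pool.Agent.Q12.WN Pool.Agent.Q12.EC

open scoped Classical in
/-- **Signed sums at every scale, for a meromorphic function.** -/
theorem mwin {P : Type*} [Countable P] {q : P → ℝ} (hq : PSys q) {d : P × ℕ → ℝ} {H : ℝ} (hH : 0 ≤ H)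
    (hd : ∀ y, -d y ≤ H) (habs : ∀ t : ℝ, 1 < t → Summable fun y => |d y| * Real.exp (-(t * WN.LG q y)))
    {F : ℂ → ℂ} (hF : MeromorphicOn F univ) (hE : ∀ s : ℂ, 1 < s.re → F s = cexp (DS d (WN.LG q) s)) {c : ℝ}
    (hc : 1 / 2 ≤ c) (hreal : ∀ x : ℝ, c < x → 0 ≤ meromorphicOrderAt F (x : ℂ)) {ρ : ℂ} (hρ : c < ρ.re)
    (ho : meromorphicOrderAt F ρ ≠ 0) {δ : ℝ} (hδ : 0 < δ) (A B : ℝ) :
    ∀ᶠ X : ℝ in atTop, ∃ x : ℝ, X ^ (1 - δ) ≤ x ∧ x ≤ X ∧
      A * x ^ c + B ≤ ∑' v, (if q v ≤ x then -d (v, 0) else 0) := by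
  obtain ⟨a, ha, h⟩ := sum_neg_c (WN.LG_nonneg hq) habs hF hE (by linarith) hreal hρ ho
  exact primesG hq hH hd A hc ha h hδ

theorem al_sum {D : Datum} {p : Nat.Primes} (hp : p ∉ D.S) (g : ℂ → ℂ) :
    ∑ i, g (al D p i) = ((D.mat p).charpoly.roots.map g).sum := by
  classical
  unfold al
  rw [if_neg hp]
  exact (exists_eig (D.mat p)).choose_spec.2.2 g

/-- `tr ρ(A_p)`, and `0` for `p` in `S` -/
noncomputable def tr (D : Datum) (p : Nat.Primes) : ℂ :=
  open scoped Classical in if p ∈ D.S then 0 else (D.mat p).trace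

theorem al_tr (D : Datum) (p : Nat.Primes) : ∑ i, al D p i = tr D p := by
  classical
  unfold tr
  split_ifs with hp
  · refine Finset.sum_eq_zero fun i _ => ?_
    unfold al
    rw [if_pos hp]
    rfl
  · rw [Matrix.trace_eq_sum_roots_charpoly]
    have h := al_sum hp id
    simp only [id_eq, Multiset.map_id'] at h
    exact h

/-- `D'` has the complex conjugate Euler factors -/
def IsConj (D D' : Datum) : Prop :=
  D'.S = D.S ∧ ∀ p : Nat.Primes, p ∉ D.S → (D'.mat p).charpoly = (D.mat p).charpoly.map (starRingEnd ℂ)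

theorem conj_sum {D D' : Datum} (h : IsConj D D') (p : Nat.Primes) (k : ℕ) :
    (starRingEnd ℂ) (∑ i, al D p i ^ (k + 1)) = ∑ i, al D' p i ^ (k + 1) := by
  classical
  by_cases hp : p ∈ D.S
  · have hp' : p ∈ D'.S := by rw [h.1]; exact hp
    have h0 : ∀ (E : Datum), p ∈ E.S → ∑ i, al E p i ^ (k + 1) = 0 := fun E hE => by
      refine Finset.sum_eq_zero fun i _ => ?_
      unfold al
      rw [if_pos hE]
      simp
    rw [h0 D hp, h0 D' hp', map_zero]
  · have hp' : p ∉ D'.S := by rw [h.1]; exact hp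
    rw [al_sum hp (fun z => z ^ (k + 1)), al_sum hp' (fun z => z ^ (k + 1)), h.2 p hp,
      (IsAlgClosed.splits (D.mat p).charpoly).roots_map, Multiset.map_map, map_multiset_sum, Multiset.map_map]
    congr 1
    refine Multiset.map_congr rfl fun z _ => ?_
    simp

variable {ι : Type*} [Fintype ι]

/-- the coefficient of the combination -/
noncomputable def cw (m : ι → ℤ) (D : ι → Datum) (y : PP) : ℝ :=
  (∑ j, (m j : ℂ) * ∑ i, al (D j) y.1 i ^ (y.2 + 1)).re / ((y.2 : ℝ) + 1)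

theorem cw_abs {m : ι → ℤ} {D : ι → Datum} (hD : ∀ j, (D j).Tempered) (y : PP) :
    |cw m D y| ≤ (∑ j, |(m j : ℝ)| * (D j).m) * (|(1 : ℝ)| / ((y.2 : ℝ) + 1)) := by
  unfold cw
  rw [abs_div, abs_of_nonneg (by positivity : (0 : ℝ) ≤ (y.2 : ℝ) + 1), abs_one, mul_one_div]
  gcongr
  refine (Complex.abs_re_le_norm _).trans ((norm_sum_le _ _).trans (Finset.sum_le_sum fun j _ => ?_))
  rw [norm_mul]
  have h1 : ‖((m j : ℤ) : ℂ)‖ = |(m j : ℝ)| := by
    rw [← Complex.ofReal_intCast, Complex.norm_real, Real.norm_eq_abs]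
  rw [h1]
  exact mul_le_mul_of_nonneg_left (tr_le (al_norm (hD j)) y.1 _) (abs_nonneg _)

theorem cw_ds {m : ι → ℤ} {D : ι → Datum} (hD : ∀ j, (D j).Tempered)
    (hr : ∀ p k, (∑ j, (m j : ℂ) * ∑ i, al (D j) p i ^ (k + 1)).im = 0) {s : ℂ} (hs : 1 < s.re) :
    DS (cw m D) (WN.LG fun p : Nat.Primes => ((p : ℕ) : ℝ)) s = ∑ j, (m j : ℂ) * FF (co (D j)) s := by
  unfold DS
  have e1 : ∀ j, (m j : ℂ) * FF (co (D j)) s = ∑' y : Nat.Primes × ℕ, (m j : ℂ) *
      ((∑ i, al (D j) y.1 i ^ (y.2 + 1)) / ((y.2 : ℂ) + 1) *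
        cexp (-(s * WN.LG (fun p : Nat.Primes => ((p : ℕ) : ℝ)) y))) := fun j => by
    rw [FF_eq_ex]
    unfold ex
    exact tsum_mul_left.symm
  rw [Finset.sum_congr rfl fun j _ => e1 j,
    ← Summable.tsum_finsetSum fun j _ => (ex_summ psysP (al_norm (hD j)) hs).mul_left (m j : ℂ)]
  refine tsum_congr fun y => ?_
  have e2 : ((cw m D y : ℝ) : ℂ) = (∑ j, (m j : ℂ) * ∑ i, al (D j) y.1 i ^ (y.2 + 1)) / ((y.2 : ℂ) + 1) := by
    unfold cw
    push_cast
    congr 1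
    refine Complex.ext ?_ ?_
    · exact Complex.ofReal_re _
    · rw [Complex.ofReal_im, hr y.1 y.2]
  rw [e2, Finset.sum_div, Finset.sum_mul]
  exact Finset.sum_congr rfl fun j _ => by ring

/-- For some `A, B` and arbitrarily large `X`, `f` satisfies `f x ≥ -(A x^c + B)` in the whole window `[X^{1-δ}, X]`. -/
def BoundedBelow (c δ : ℝ) (f : ℝ → ℝ) : Prop :=
  ∃ A B : ℝ, ∃ᶠ X : ℝ in atTop, ∀ x : ℝ, X ^ (1 - δ) ≤ x → x ≤ X → -(A * x ^ c + B) ≤ f x

/-- `∑_{p ≤ x} ∑_j m_j Re tr ρ_j(A_{j,p})` -/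
noncomputable def trSum (m : ι → ℤ) (D : ι → Datum) (x : ℝ) : ℝ :=
  open scoped Classical in ∑' p : Nat.Primes, if ((p : ℕ) : ℝ) ≤ x then ∑ j, m j * (tr (D j) p).re else 0

/-- **One-sided bounds in windows for meromorphic continuations.** -/
theorem mcomb {D : ι → Datum} (hD : ∀ j, (D j).Tempered) {m : ι → ℤ} {τ : Equiv.Perm ι}
    (hτ : ∀ j, m (τ j) = m j ∧ IsConj (D j) (D (τ j))) {F : ι → ℂ → ℂ} (hF : ∀ j, MeromorphicOn (F j) univ)
    (hE : ∀ j, ∀ s : ℂ, 1 < s.re → F j s = (D j).LFun s) {c : ℝ} (hc : 1 / 2 ≤ c)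
    (hreal : ∀ x : ℝ, c < x → 0 ≤ ∑ j, ((m j : ℤ) : WithTop ℤ) * meromorphicOrderAt (F j) (x : ℂ)) {δ : ℝ}
    (hδ : 0 < δ) (hw : BoundedBelow c δ (trSum m D)) {ρ : ℂ} (hρ : c < ρ.re) :
    ∑ j, ((m j : ℤ) : WithTop ℤ) * meromorphicOrderAt (F j) ρ = 0 := by
  classical
  by_contra ho
  obtain ⟨A, B, hAB⟩ := hw
  have hord : ∀ z : ℂ, meromorphicOrderAt (fun s => ∏ j, (F j ^ m j) s) z =
      ∑ j, ((m j : ℤ) : WithTop ℤ) * meromorphicOrderAt (F j) z := fun z => by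
    rw [meromorphicOrderAt_fun_prod fun j _ => (hF j z (mem_univ z)).zpow (m j)]
    exact Finset.sum_congr rfl fun j _ => meromorphicOrderAt_zpow (hF j z (mem_univ z))
  have hFm : MeromorphicOn (fun s => ∏ j, (F j ^ m j) s) univ := fun z hz => by
    have h1 : MeromorphicAt (∏ j, F j ^ m j) z := MeromorphicAt.prod fun j _ => (hF j z hz).zpow (m j)
    have h2 : (∏ j, F j ^ m j) = fun s => ∏ j, (F j ^ m j) s := by
      funext s
      exact Finset.prod_apply _ _ _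
    rwa [h2] at h1
  have hr : ∀ (p : Nat.Primes) (k : ℕ), (∑ j, (m j : ℂ) * ∑ i, al (D j) p i ^ (k + 1)).im = 0 := by
    intro p k
    rw [← Complex.conj_eq_iff_im, map_sum]
    have h1 : ∀ j, (starRingEnd ℂ) ((m j : ℂ) * ∑ i, al (D j) p i ^ (k + 1)) =
        (m (τ j) : ℂ) * ∑ i, al (D (τ j)) p i ^ (k + 1) := by
      intro j
      obtain ⟨h1, h2⟩ := hτ j
      rw [h1, map_mul, conj_sum h2]
      congr 1
      exact map_intCast (starRingEnd ℂ) _
    rw [Finset.sum_congr rfl fun j _ => h1 j]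
    exact Equiv.sum_comp τ fun j => (m j : ℂ) * ∑ i, al (D j) p i ^ (k + 1)
  have hH : 0 ≤ ∑ j, |(m j : ℝ)| * (D j).m := Finset.sum_nonneg fun j _ => by positivity
  have key := mwin psysP (d := cw m D) hH (fun y => by
      have h1 := cw_abs (m := m) hD y
      have h2 := neg_le_abs (cw m D y)
      have h3 : |(1 : ℝ)| / ((y.2 : ℝ) + 1) ≤ 1 := by
        rw [abs_one, div_le_one (by positivity)]
        have : (0 : ℝ) ≤ y.2 := Nat.cast_nonneg _
        linarith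
      nlinarith [mul_le_mul_of_nonneg_left h3 hH]) (fun t ht => by
      refine Summable.of_nonneg_of_le (fun y => by positivity) (fun y => ?_)
        ((one_summ psysP ht).mul_left (∑ j, |(m j : ℝ)| * (D j).m))
      rw [← mul_assoc]
      exact mul_le_mul_of_nonneg_right (cw_abs hD y) (Real.exp_pos _).le) hFm (fun s hs => by
      rw [cw_ds hD hr hs, Complex.exp_sum]
      refine Finset.prod_congr rfl fun j _ => ?_
      rw [Pi.pow_apply, hE j s hs, LFun_exp (hD j) hs, ← Complex.exp_int_mul]) hc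
    (fun x hx => by rw [hord]; exact hreal x hx) hρ (by rw [hord]; exact ho) hδ A (B + 1)
  obtain ⟨X, h1, h2⟩ := (hAB.and_eventually key).exists
  obtain ⟨x, h3, h4, h5⟩ := h2
  have h6 := h1 x h3 h4
  have h7 : (∑' v : Nat.Primes, (if ((v : ℕ) : ℝ) ≤ x then -cw m D (v, 0) else 0)) = -trSum m D x := by
    unfold trSum
    rw [← tsum_neg]
    refine tsum_congr fun p => ?_
    split_ifs
    · unfold cw
      simp only [Nat.cast_zero, zero_add, div_one, pow_one]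
      rw [Complex.re_sum]
      congr 1
      refine Finset.sum_congr rfl fun j _ => ?_
      rw [al_tr, ← Complex.ofReal_intCast, Complex.re_ofReal_mul]
    · rw [neg_zero]
  rw [h7] at h5
  linarith

/-- the order of a meromorphic function at `z`: positive at a zero, negative at a pole -/
noncomputable def ord (F : ℂ → ℂ) (z : ℂ) : ℤ := (meromorphicOrderAt F z).untop₀

theorem ord_ne_top {D : Datum} (hD : D.Tempered) {F : ℂ → ℂ} (hF : MeromorphicOn F univ)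
    (hE : ∀ s : ℂ, 1 < s.re → F s = D.LFun s) (z : ℂ) : meromorphicOrderAt F z ≠ ⊤ := by
  refine (hF.exists_meromorphicOrderAt_ne_top_iff_forall isConnected_univ).1 ⟨⟨2, mem_univ _⟩, ?_⟩ ⟨z, mem_univ _⟩
  intro h1
  have h1' : meromorphicOrderAt F 2 = ⊤ := h1
  rw [meromorphicOrderAt_eq_top_iff] at h1'
  have h2 : ∀ᶠ s : ℂ in 𝓝[≠] 2, 1 < s.re := by
    refine Filter.Eventually.filter_mono nhdsWithin_le_nhds ?_
    exact (isOpen_lt continuous_const Complex.continuous_re).mem_nhds (by norm_num)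
  obtain ⟨s, h3, h4⟩ := (h1'.and h2).exists
  rw [hE s h4, LFun_exp hD h4] at h3
  exact Complex.exp_ne_zero _ h3

theorem sum_ord {D : ι → Datum} (hD : ∀ j, (D j).Tempered) {m : ι → ℤ} {F : ι → ℂ → ℂ}
    (hF : ∀ j, MeromorphicOn (F j) univ) (hE : ∀ j, ∀ s : ℂ, 1 < s.re → F j s = (D j).LFun s) (z : ℂ) :
    ∑ j, ((m j : ℤ) : WithTop ℤ) * meromorphicOrderAt (F j) z = ((∑ j, m j * ord (F j) z : ℤ) : WithTop ℤ) := by
  push_cast
  refine Finset.sum_congr rfl fun j _ => ?_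
  unfold ord
  rw [WithTop.coe_untop₀_of_ne_top (ord_ne_top (hD j) (hF j) (hE j) z)]

/-- **The criterion.** -/
theorem mcomb' {D : ι → Datum} (hD : ∀ j, (D j).Tempered) {m : ι → ℤ} {τ : Equiv.Perm ι}
    (hτ : ∀ j, m (τ j) = m j ∧ IsConj (D j) (D (τ j))) {F : ι → ℂ → ℂ} (hF : ∀ j, MeromorphicOn (F j) univ)
    (hE : ∀ j, ∀ s : ℂ, 1 < s.re → F j s = (D j).LFun s) {c : ℝ} (hc : 1 / 2 ≤ c)
    (hreal : ∀ x : ℝ, c < x → 0 ≤ ∑ j, m j * ord (F j) (x : ℂ)) {δ : ℝ}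
    (hδ : 0 < δ) (hw : BoundedBelow c δ (trSum m D)) {ρ : ℂ} (hρ : c < ρ.re) :
    ∑ j, m j * ord (F j) ρ = 0 := by
  have h := mcomb hD hτ hF hE hc (fun x hx => by
    rw [sum_ord hD hF hE]
    exact_mod_cast hreal x hx) hδ hw hρ
  rw [sum_ord hD hF hE] at h
  exact_mod_cast h

end Pool.Agent.Q12.GS
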